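import Pool.Agent.LibAvoid.Lim

set_option autoImplicit false

open Cardinal Ordinal Set Topology

namespace Pool.Agent.LibAvoid

/-! ### Coding -/

abbrev Idx : Type := (List Bool × List Bool) ⊕ (Om × (Bool × ℕ × Bool))

theorem exists_code : ∃ e : Idx → Om, Function.Injective e := by
  have h : #Idx ≤ #Om := by
    rw [mk_Om]
    have h1 : #(List Bool × List Bool) ≤ ℵ₀ := Cardinal.mk_le_aleph0
    have h2 : #(Bool × ℕ × Bool) ≤ ℵ₀ := Cardinal.mk_le_aleph0
    have h3 : (ℵ₀ : Cardinal.{0}) ≤ ℵ₁ := Cardinal.aleph0_lt_aleph_one.le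
    have h4 : #(Om × (Bool × ℕ × Bool)) ≤ ℵ₁ := by
      rw [Cardinal.mk_prod, Cardinal.lift_id, Cardinal.lift_id, mk_Om]
      calc ℵ₁ * #(Bool × ℕ × Bool) ≤ ℵ₁ * ℵ₁ := mul_le_mul' le_rfl (h2.trans h3)
        _ = ℵ₁ := Cardinal.mul_eq_self h3
    calc #Idx = #(List Bool × List Bool) + #(Om × (Bool × ℕ × Bool)) := by
          rw [Cardinal.mk_sum, Cardinal.lift_id, Cardinal.lift_id]
      _ ≤ ℵ₁ + ℵ₁ := add_le_add (h1.trans h3) h4
      _ = ℵ₁ := Cardinal.add_eq_self h3
  obtain ⟨f⟩ := Cardinal.le_def _ _ |>.1 h
  exact ⟨f, f.injective⟩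

theorem exists_en (δ : Om) : ∃ en : ℕ → Option (Iio δ), ∀ β, ∃ j, en j = some β := by
  classical
  obtain ⟨φ, hφ⟩ := (countable_Iio δ).exists_injective_nat
  refine ⟨fun j => if h : ∃ β, φ β = j then some h.choose else none, ?_⟩
  intro β
  refine ⟨φ β, ?_⟩
  have h : ∃ β', φ β' = φ β := ⟨β, rfl⟩
  simp only [h, dif_pos]
  congr 1
  exact hφ h.choose_spec

noncomputable def en (δ : Om) : ℕ → Option (Iio δ) := (exists_en δ).choose

theorem en_spec (δ : Om) (β : Iio δ) : ∃ j, en δ j = some β := (exists_en δ).choose_spec β

open Classical in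
noncomputable def bit (e : Idx → Om) (δ : Om) (f : Iio δ → Bool) (x : Idx) : Bool :=
  if h : e x < δ then f ⟨e x, h⟩ else false

noncomputable def cOf (e : Idx → Om) (δ : Om) (f : Iio δ → Bool) : CC :=
  fun s t => bit e δ f (Sum.inl (s, t))

noncomputable def hOf (e : Idx → Om) (δ : Om) (f : Iio δ → Bool) (β : Om) : PP :=
  fun i n => if bit e δ f (Sum.inr (β, (i, n, false))) = true then
    some (bit e δ f (Sum.inr (β, (i, n, true)))) else none

/-- transfer a family indexed by `Iio δ` to a sequence -/
noncomputable def seqq (δ : Om) (P : Iio δ → PP) : ℕ → PP :=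
  fun j => match en δ j with
    | some β => P β
    | none => fun _ _ => none

noncomputable def hs (e : Idx → Om) (δ : Om) (f : Iio δ → Bool) : PP :=
  lim (seqq δ fun β => hOf e δ f β)

def ext (s : List Bool) : Cantor := fun k => s.getD k false

theorem ext_initSeg (r : Cantor) (K k : ℕ) (hk : k < K) : ext (initSeg r K) k = r k := by
  simp [ext, initSeg, hk]

theorem length_initSeg (r : Cantor) (K : ℕ) : (initSeg r K).length = K := by
  simp [initSeg]

open Classical in
noncomputable def FF (e : Idx → Om) (δ : Om) (f : Iio δ → Bool) (M : ℕ) (s : List Bool) : Bool :=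
  decide (FreeP (hs e δ f) ∧ ¬ Wit (cOf e δ f) (hs e δ f) M s.length (ext s))

theorem meas_bit (e : Idx → Om) (δ : Om) (x : Idx) (b : Bool) :
    Measurable fun f : Iio δ → Bool => bit e δ f x = b := by
  unfold bit
  by_cases h : e x < δ
  · simp only [h, dif_pos]
    have h1 : Measurable fun f : Iio δ → Bool => f ⟨e x, h⟩ := measurable_pi_apply _
    have h2 : Measurable fun c : Bool => c = b := measurable_from_top
    exact h2.comp h1
  · simp only [h, dif_neg, not_false_eq_true]
    exact measurable_const

theorem meas_hOf (e : Idx → Om) (δ : Om) (β : Om) (i : Bool) (n : ℕ) (v : Option Bool) :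
    Measurable fun f : Iio δ → Bool => hOf e δ f β i n = v := by
  have : (fun f : Iio δ → Bool => hOf e δ f β i n = v) = fun f =>
      (bit e δ f (Sum.inr (β, (i, n, false))) = true ∧
        ∃ b : Bool, bit e δ f (Sum.inr (β, (i, n, true))) = b ∧ some b = v) ∨
      (bit e δ f (Sum.inr (β, (i, n, false))) = false ∧ none = v) := by
    funext f
    unfold hOf
    cases bit e δ f (Sum.inr (β, (i, n, false))) <;> simp
  rw [this]
  exact ((meas_bit _ _ _ _).and (Measurable.exists fun b =>
    (meas_bit _ _ _ _).and measurable_const)).or ((meas_bit _ _ _ _).and measurable_const)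

theorem meas_hs (e : Idx → Om) (δ : Om) (i : Bool) (n : ℕ) (v : Option Bool) :
    Measurable fun f : Iio δ → Bool => hs e δ f i n = v := by
  refine meas_lim ?_ i n v
  intro j i n v
  unfold seqq
  cases en δ j with
  | none => exact (measurable_const : Measurable fun _ : Iio δ → Bool => (none : Option Bool) = v)
  | some β => exact meas_hOf e δ β i n v

theorem meas_FF (e : Idx → Om) (δ : Om) : Measurable (FF e δ) := by
  rw [measurable_pi_iff]
  intro M
  rw [measurable_pi_iff]
  intro s
  have h : Measurable fun f : Iio δ → Bool =>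
      FreeP (hs e δ f) ∧ ¬ Wit (cOf e δ f) (hs e δ f) M s.length (ext s) := by
    refine (meas_FreeP (meas_hs e δ)).and (meas_Wit ?_ (meas_hs e δ) _ _ _).not
    intro s t
    exact meas_bit e δ _ true
  refine measurable_to_bool ?_
  have : (fun f => FF e δ f M s) ⁻¹' {true} = {f : Iio δ → Bool |
      FreeP (hs e δ f) ∧ ¬ Wit (cOf e δ f) (hs e δ f) M s.length (ext s)} := by
    ext f
    simp [FF]
  rw [this]
  exact measurableSet_setOfPred.2 h

theorem isClosed_closedOf (c : List Bool → Bool) : IsClosed (closedOf c) := by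
  have : closedOf c = ⋂ k, {r : Cantor | c (initSeg r k) = true} := by
    ext r; simp [closedOf]
  rw [this]
  refine isClosed_iInter fun k => ?_
  have hcont : Continuous fun r : Cantor => c (initSeg r k) := by
    have h1 : Continuous fun r : Cantor => (fun i : Fin k => r i) :=
      continuous_pi fun i => continuous_apply _
    have h2 : Continuous fun w : Fin k → Bool => c (List.ofFn w) := continuous_of_discreteTopology
    exact h2.comp h1
  exact isClosed_singleton.preimage hcont

theorem mem_nhds_prefix {U : Set Cantor} {r : Cantor} (hU : U ∈ 𝓝 r) :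
    ∃ K, ∀ r' : Cantor, (∀ k < K, r k = r' k) → r' ∈ U := by
  rw [nhds_pi, Filter.mem_pi] at hU
  obtain ⟨I, hI, t, ht, hsub⟩ := hU
  obtain ⟨K, hK⟩ := hI.bddAbove
  refine ⟨K + 1, fun r' hr' => hsub ?_⟩
  intro k hk
  have h1 := hK hk
  have h2 : r k = r' k := hr' k (by omega)
  rw [← h2]
  exact mem_of_mem_nhds (ht k)

theorem nowhereDense_FF (e : Idx → Om) (δ : Om) (f : Iio δ → Bool) (M : ℕ) :
    IsNowhereDense (closedOf (FF e δ f M)) := by
  unfold IsNowhereDense
  rw [(isClosed_closedOf _).closure_eq]
  rw [Set.eq_empty_iff_forall_notMem]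
  intro r hr
  have hr' := mem_interior_iff_mem_nhds.1 hr
  by_cases hf : FreeP (hs e δ f)
  · obtain ⟨K, hK⟩ := mem_nhds_prefix hr'
    obtain ⟨r', K', hrr, hw⟩ := Wit.dense (c := cOf e δ f) hf M K r
    have h1 := hK r' hrr
    have h2 := h1 K'
    simp only [FF, length_initSeg, decide_eq_true_eq] at h2
    exact h2.2 (hw.congr fun k hk => (ext_initSeg r' K' k hk).symm)
  · have h1 := mem_of_mem_nhds hr' 0
    simp [FF, hf] at h1

theorem not_mem_meagre {e : Idx → Om} {δ : Om} {f : Iio δ → Bool} (hf : FreeP (hs e δ f))
    {r : Cantor} (hr : r ∉ meagreOf (FF e δ f)) (M : ℕ) :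
    ∃ K, Wit (cOf e δ f) (hs e δ f) M K r := by
  simp only [meagreOf, mem_iUnion, not_exists] at hr
  have h1 := hr M
  simp only [closedOf, mem_ofPred_eq, not_forall] at h1
  obtain ⟨K, hK⟩ := h1
  simp only [FF, length_initSeg, decide_eq_true_eq, not_and, not_not] at hK
  exact ⟨K, (hK hf).congr fun k hk => ext_initSeg r K k hk⟩

/-! ### The recursion -/

open Classical in
noncomputable def stepP (h : PP) (r : Cantor) : PP := if FreeP (upd h r) then upd h r else h

noncomputable def HH (g : Om → Cantor) : Om → PP :=
  WellFounded.fix (wellFounded_lt : WellFounded ((· < ·) : Om → Om → Prop))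
    (fun δ ih => stepP (lim (seqq δ fun β => ih β.1 β.2)) (g δ))

noncomputable def HS (g : Om → Cantor) (δ : Om) : PP := lim (seqq δ fun β => HH g β.1)

theorem HH_eq (g : Om → Cantor) (δ : Om) : HH g δ = stepP (HS g δ) (g δ) := by
  unfold HS
  rw [HH, WellFounded.fix_eq]

theorem AE.trans {h h' h'' : PP} (H : AE h h') (H' : AE h' h'') : AE h h'' := by
  intro i
  obtain ⟨m, hm⟩ := H i
  obtain ⟨m', hm'⟩ := H' i
  exact ⟨max m m', fun n hn b hb => hm' n ((le_max_right _ _).trans hn) b
    (hm n ((le_max_left _ _).trans hn) b hb)⟩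

theorem AE.rfl {h : PP} : AE h h := fun _ => ⟨0, fun _ _ _ hb => hb⟩

theorem stepP_ext (h : PP) (r : Cantor) {i : Bool} {n : ℕ} {b : Bool} (hb : h i n = some b) :
    stepP h r i n = some b := by
  unfold stepP
  split_ifs
  · exact upd_some hb
  · exact hb

theorem stepP_free {h : PP} (hf : FreeP h) (r : Cantor) : FreeP (stepP h r) := by
  unfold stepP
  split_ifs with h1
  · exact h1
  · exact hf

theorem coh_seqq (δ : Om) (P : Iio δ → PP) (hfree : ∀ β, FreeP (P β))
    (hae : ∀ γ β, γ < β → AE (P γ) (P β)) : Coh (seqq δ P) := by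
  have hae' : ∀ γ β, γ ≤ β → AE (P γ) (P β) := by
    intro γ β h
    rcases h.eq_or_lt with rfl | h
    · exact AE.rfl
    · exact hae _ _ h
  constructor
  · intro i k
    have key : (∀ j ≤ k, en δ j = none) ∨ ∃ β : Iio δ, ∀ j ≤ k, ∀ γ, en δ j = some γ → γ ≤ β := by
      induction k with
      | zero =>
        cases h : en δ 0 with
        | none =>
          left
          intro j hj
          have : j = 0 := by omega
          rw [this]; exact h
        | some β =>
          right
          refine ⟨β, fun j hj γ hγ => ?_⟩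
          have : j = 0 := by omega
          rw [this, h] at hγ
          exact (Option.some.inj hγ).ge
      | succ k ih =>
        cases h : en δ (k + 1) with
        | none =>
          rcases ih with ih | ⟨β, hβ⟩
          · left
            intro j hj
            rcases Nat.lt_or_ge k j with hkj | hkj
            · have : j = k + 1 := by omega
              rw [this]; exact h
            · exact ih j hkj
          · right
            refine ⟨β, fun j hj γ hγ => ?_⟩
            rcases Nat.lt_or_ge k j with hkj | hkj
            · have : j = k + 1 := by omega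
              rw [this, h] at hγ
              exact absurd hγ (by simp)
            · exact hβ j hkj γ hγ
        | some β' =>
          right
          rcases ih with ih | ⟨β, hβ⟩
          · refine ⟨β', fun j hj γ hγ => ?_⟩
            rcases Nat.lt_or_ge k j with hkj | hkj
            · have : j = k + 1 := by omega
              rw [this, h] at hγ
              exact (Option.some.inj hγ).ge
            · rw [ih j hkj] at hγ
              exact absurd hγ (by simp)
          · refine ⟨max β β', fun j hj γ hγ => ?_⟩
            rcases Nat.lt_or_ge k j with hkj | hkj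
            · have : j = k + 1 := by omega
              rw [this, h] at hγ
              exact (Option.some.inj hγ).ge.trans (le_max_right _ _)
            · exact (hβ j hkj γ hγ).trans (le_max_left _ _)
    rcases key with key | ⟨β, hβ⟩
    · intro m
      refine ⟨m, le_rfl, fun j hj => ?_⟩
      simp [seqq, key j hj]
    · -- thresholds
      have h1 : ∀ j, ∃ m, j ≤ k → ∀ n ≥ m, P β i n = none → seqq δ P j i n = none := by
        intro j
        cases h : en δ j with
        | none => exact ⟨0, fun _ n _ _ => by simp [seqq, h]⟩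
        | some γ =>
          by_cases hj : j ≤ k
          · obtain ⟨m, hm⟩ := hae' γ β (hβ j hj γ h) i
            refine ⟨m, fun _ n hn hnone => ?_⟩
            have e1 : seqq δ P j i n = P γ i n := by simp [seqq, h]
            rw [e1]
            cases hh : P γ i n with
            | none => rfl
            | some b =>
              rw [hm n hn b hh] at hnone
              exact absurd hnone (by simp)
          · exact ⟨0, fun hj' => absurd hj' hj⟩
      choose t ht using h1
      intro m
      obtain ⟨n, hn, hnone⟩ := hfree β i (m + (Finset.range (k + 1)).sup t)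
      refine ⟨n, by omega, fun j hj => ?_⟩
      have h2 : t j ≤ (Finset.range (k + 1)).sup t :=
        Finset.le_sup (f := t) (Finset.mem_range.2 (by omega))
      exact ht j hj n (by omega) hnone
  · intro i j j'
    cases h : en δ j with
    | none => exact ⟨0, fun n _ b b' hb => by simp [seqq, h] at hb⟩
    | some γ =>
      cases h' : en δ j' with
      | none => exact ⟨0, fun n _ b b' _ hb' => by simp [seqq, h'] at hb'⟩
      | some γ' =>
        rcases le_total γ γ' with hle | hle
        · obtain ⟨m, hm⟩ := hae' γ γ' hle i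
          refine ⟨m, fun n hn b b' hb hb' => ?_⟩
          simp only [seqq, h] at hb
          simp only [seqq, h'] at hb'
          rw [hm n hn b hb] at hb'
          exact Option.some.inj hb'
        · obtain ⟨m, hm⟩ := hae' γ' γ hle i
          refine ⟨m, fun n hn b b' hb hb' => ?_⟩
          simp only [seqq, h] at hb
          simp only [seqq, h'] at hb'
          rw [hm n hn b' hb'] at hb
          exact (Option.some.inj hb).symm

theorem HH_main (g : Om → Cantor) (δ : Om) :
    FreeP (HH g δ) ∧ FreeP (HS g δ) ∧ (∀ β < δ, AE (HH g β) (HS g δ)) ∧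
      (∀ β < δ, AE (HH g β) (HH g δ)) := by
  induction δ using WellFoundedLT.induction with
  | ind δ ih =>
    have hC : Coh (seqq δ fun β : Iio δ => HH g β.1) := by
      refine coh_seqq δ _ (fun β => (ih β.1 β.2).1) ?_
      intro γ β hlt
      exact (ih β.1 β.2).2.2.2 γ.1 hlt
    have h2 : FreeP (HS g δ) := hC.lim_free
    have h1 : FreeP (HH g δ) := by rw [HH_eq]; exact stepP_free h2 _
    have h3 : ∀ β < δ, AE (HH g β) (HS g δ) := by
      intro β hβ
      obtain ⟨j, hj⟩ := en_spec δ ⟨β, hβ⟩
      have := hC.lim_ext j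
      simp only [seqq, hj] at this
      exact this
    refine ⟨h1, h2, h3, fun β hβ => (h3 β hβ).trans ?_⟩
    intro i
    refine ⟨0, fun n _ b hb => ?_⟩
    rw [HH_eq]
    exact stepP_ext _ _ hb

end Pool.Agent.LibAvoid
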