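import Pool.Agent.LibAvoid.Omega

set_option autoImplicit false

open Cardinal Ordinal Set Topology

namespace Pool.Agent.LibAvoid

/-- pairs of partial functions from `ω` to `2` -/
abbrev PP : Type := Bool → ℕ → Option Bool
/-- pairs of points of the Cantor space -/
abbrev Pt : Type := Bool → ℕ → Bool
abbrev CC : Type := List Bool → List Bool → Bool

def EqUp (n : ℕ) (z w : Pt) : Prop := ∀ i, ∀ k < n, z i k = w i k
def Ag (h : PP) (n m : ℕ) (z : Pt) : Prop :=
  ∀ i k, n ≤ k → k < m → ∀ b, h i k = some b → z i k = b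
def FreeP (h : PP) : Prop := ∀ i m, ∃ n ≥ m, h i n = none
def AE (h h' : PP) : Prop := ∀ i, ∃ m, ∀ n ≥ m, ∀ b, h i n = some b → h' i n = some b

theorem EqUp.symm {n : ℕ} {z w : Pt} (h : EqUp n z w) : EqUp n w z :=
  fun i k hk => (h i k hk).symm
theorem EqUp.trans {n : ℕ} {z w v : Pt} (h : EqUp n z w) (h' : EqUp n w v) : EqUp n z v :=
  fun i k hk => (h i k hk).trans (h' i k hk)
theorem EqUp.mono {n m : ℕ} {z w : Pt} (h : EqUp n z w) (hm : m ≤ n) : EqUp m z w :=
  fun i k hk => h i k (lt_of_lt_of_le hk hm)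
theorem EqUp.refl (n : ℕ) (z : Pt) : EqUp n z z := fun _ _ _ => rfl

def pt (l : List Bool × List Bool) : Pt :=
  fun i k => (if i = true then l.2 else l.1).getD k false

theorem exists_pt (z : Pt) (n : ℕ) : ∃ l, EqUp n z (pt l) := by
  refine ⟨(initSeg (z false) n, initSeg (z true) n), ?_⟩
  intro i k hk
  cases i <;> simp [pt, initSeg, hk]

theorem initSeg_eq_iff (x y : Cantor) (n : ℕ) :
    initSeg x n = initSeg y n ↔ ∀ k < n, x k = y k := by
  unfold initSeg
  rw [List.ofFn_inj]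
  constructor
  · intro h k hk
    exact congrFun h ⟨k, hk⟩
  · intro h
    funext k
    exact h k k.2

def cAt (c : CC) (n : ℕ) (z : Pt) : Prop :=
  c (initSeg (z false) n) (initSeg (z true) n) = true

theorem cAt_congr {c : CC} {n : ℕ} {z w : Pt} (h : EqUp n z w) : cAt c n z ↔ cAt c n w := by
  unfold cAt
  rw [(initSeg_eq_iff _ _ _).2 (h false), (initSeg_eq_iff _ _ _).2 (h true)]

def cm (c : CC) (n : ℕ) (z : Pt) : Prop := ∃ m, m ≤ n ∧ cAt c m z

theorem cm_mono {c : CC} {n m : ℕ} {z w : Pt} (h : cm c n z) (hnm : n ≤ m) (he : EqUp n z w) :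
    cm c m w := by
  obtain ⟨j, hj, hc⟩ := h
  exact ⟨j, hj.trans hnm, (cAt_congr (he.mono hj)).1 hc⟩

def Dead (c : CC) (h : PP) (n : ℕ) (z : Pt) : Prop :=
  ∀ m, n ≤ m → ∀ l, EqUp n z (pt l) → Ag h n m (pt l) → ¬ cm c m (pt l)

theorem Dead.of_pt {c : CC} {h : PP} {n : ℕ} {z : Pt} (hd : Dead c h n z) {m : ℕ} (hm : n ≤ m)
    {w : Pt} (hw : EqUp n z w) (ha : Ag h n m w) : ¬ cm c m w := by
  obtain ⟨l, hl⟩ := exists_pt w m
  intro hc
  refine hd m hm l (hw.trans (hl.mono hm)) ?_ (cm_mono hc le_rfl hl)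
  intro i k hk hk' b hb
  rw [← hl i k hk']
  exact ha i k hk hk' b hb

def DD (c : CC) (h : PP) (n : ℕ) (z : Pt) : Prop := cm c n z ∨ Dead c h n z

theorem DD_mono {c : CC} {h : PP} {n m : ℕ} {z w : Pt} (hd : DD c h n z) (hnm : n ≤ m)
    (he : EqUp n z w) (ha : Ag h n m w) : DD c h m w := by
  rcases hd with hc | hd
  · exact Or.inl (cm_mono hc hnm he)
  · right
    intro m' hm' l hl hal
    refine hd m' (hnm.trans hm') l (he.trans (hl.mono hnm)) ?_
    intro i k hk hk' b hb
    rcases lt_or_ge k m with hkm | hkm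
    · rw [← hl i k hkm]
      exact ha i k hk hkm b hb
    · exact hal i k hkm hk' b hb

theorem DD_congr {c : CC} {h : PP} {n : ℕ} {z w : Pt} (hd : DD c h n z)
    (he : EqUp n z w) : DD c h n w :=
  DD_mono hd le_rfl he (fun _ _ h1 h2 => absurd h2 (not_lt.2 h1))

theorem DD_dense (c : CC) (h : PP) (n : ℕ) (z : Pt) :
    ∃ m, n ≤ m ∧ ∃ w, EqUp n z w ∧ Ag h n m w ∧ DD c h m w := by
  by_cases hd : Dead c h n z
  · exact ⟨n, le_rfl, z, EqUp.refl _ _, fun _ _ h1 h2 => absurd h2 (not_lt.2 h1), Or.inr hd⟩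
  · unfold Dead at hd
    push Not at hd
    obtain ⟨m, hm, l, hl, ha, hc⟩ := hd
    exact ⟨m, hm, pt l, hl, ha, Or.inl hc⟩

/-- `w` below `N`, `v` from `N` on -/
def comb (N : ℕ) (w : Bool → Fin N → Bool) (v : Pt) : Pt :=
  fun i k => if hk : k < N then w i ⟨k, hk⟩ else v i k

theorem comb_lt {N : ℕ} {w : Bool → Fin N → Bool} {v : Pt} {i : Bool} {k : ℕ} (hk : k < N) :
    comb N w v i k = w i ⟨k, hk⟩ := by simp [comb, hk]
theorem comb_ge {N : ℕ} {w : Bool → Fin N → Bool} {v : Pt} {i : Bool} {k : ℕ} (hk : N ≤ k) :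
    comb N w v i k = v i k := by simp [comb, not_lt.2 hk]

theorem block_aux (c : CC) (h : PP) (N : ℕ) (S : Finset (Bool → Fin N → Bool)) :
    ∃ N', N ≤ N' ∧ ∃ v : Pt, Ag h N N' v ∧ ∀ w ∈ S, DD c h N' (comb N w v) := by
  classical
  induction S using Finset.induction_on with
  | empty =>
    exact ⟨N, le_rfl, fun _ _ => false, fun _ _ h1 h2 => absurd h2 (not_lt.2 h1), by simp⟩
  | insert w₀ S _ ih =>
    obtain ⟨N', hN', v, hv, hS⟩ := ih
    obtain ⟨m, hm, z', he, ha, hd⟩ := DD_dense c h N' (comb N w₀ v)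
    refine ⟨m, hN'.trans hm, fun i k => if k < N' then v i k else z' i k, ?_, ?_⟩
    · intro i k hk hk' b hb
      by_cases hkN : k < N'
      · simp only [hkN, if_true]
        exact hv i k hk hkN b hb
      · simp only [hkN, if_false]
        exact ha i k (not_lt.1 hkN) hk' b hb
    · intro w hw
      rw [Finset.mem_insert] at hw
      rcases hw with rfl | hw
      · refine DD_congr hd ?_
        intro i k hk
        by_cases hkN : k < N
        · rw [comb_lt hkN, ← he i k (lt_of_lt_of_le hkN hN'), comb_lt hkN]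
        · rw [comb_ge (not_lt.1 hkN)]
          by_cases hkN' : k < N'
          · simp only [hkN', if_true]
            rw [← he i k hkN', comb_ge (not_lt.1 hkN)]
          · simp only [hkN', if_false]
      · refine DD_mono (hS w hw) hm ?_ ?_
        · intro i k hk
          by_cases hkN : k < N
          · rw [comb_lt hkN, comb_lt hkN]
          · rw [comb_ge (not_lt.1 hkN), comb_ge (not_lt.1 hkN)]
            simp only [hk, if_true]
        · intro i k hk hk' b hb
          rw [comb_ge (hN'.trans hk)]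
          simp only [not_lt.2 hk, if_false]
          exact ha i k hk hk' b hb

theorem block_exists (c : CC) (h : PP) (N : ℕ) :
    ∃ N', N ≤ N' ∧ ∃ v : Pt, Ag h N N' v ∧
      ∀ z : Pt, (∀ i k, N ≤ k → k < N' → v i k = z i k) → DD c h N' z := by
  classical
  obtain ⟨N', hN', v, hv, hS⟩ := block_aux c h N Finset.univ
  refine ⟨N', hN', v, hv, ?_⟩
  intro z hz
  refine DD_congr (hS (fun i k => z i k) (Finset.mem_univ _)) ?_
  intro i k hk
  by_cases hkN : k < N
  · rw [comb_lt hkN]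
  · rw [comb_ge (not_lt.1 hkN)]
    exact hz i k (not_lt.1 hkN) hk

/-- killing block -/
def Blk (c : CC) (h u : PP) (N N' : ℕ) : Prop :=
  N ≤ N' ∧ (∀ i k, N ≤ k → k < N' → u i k ≠ none) ∧
    ∀ l, (∀ i k, N ≤ k → k < N' → u i k = some (pt l i k)) → DD c h N' (pt l)

theorem Blk.apply {c : CC} {h u : PP} {N N' : ℕ} (hb : Blk c h u N N') {z : Pt}
    (hz : ∀ i k, N ≤ k → k < N' → u i k = some (z i k)) : DD c h N' z := by
  obtain ⟨l, hl⟩ := exists_pt z N'
  refine DD_congr (hb.2.2 l ?_) hl.symm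
  intro i k hk hk'
  rw [hz i k hk hk', hl i k hk']

theorem Blk.congr {c : CC} {h u u' : PP} {N N' : ℕ} (hb : Blk c h u N N')
    (hu : ∀ i k, k < N' → u i k = u' i k) : Blk c h u' N N' := by
  refine ⟨hb.1, fun i k hk hk' => by rw [← hu i k hk']; exact hb.2.1 i k hk hk', ?_⟩
  intro l hl
  exact hb.2.2 l fun i k hk hk' => by rw [hu i k hk']; exact hl i k hk hk'

/-! ### Decoding a real as a pair of partial functions -/

def bitPos (i : Bool) (n : ℕ) (j : Bool) : ℕ := 4 * n + (2 * i.toNat + j.toNat)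

theorem bitPos_lt (i : Bool) (n : ℕ) (j : Bool) : bitPos i n j < 4 * n + 4 := by
  cases i <;> cases j <;> simp [bitPos]

def dec (r : Cantor) : PP :=
  fun i n => if r (bitPos i n false) = true then some (r (bitPos i n true)) else none

def upd (h : PP) (r : Cantor) : PP := fun i n => (h i n).orElse fun _ => dec r i n

theorem upd_some {h : PP} {r : Cantor} {i : Bool} {n : ℕ} {b : Bool} (hb : h i n = some b) :
    upd h r i n = some b := by simp [upd, hb]

theorem upd_none {h : PP} {r : Cantor} {i : Bool} {n : ℕ} (hb : h i n = none) :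
    upd h r i n = dec r i n := by simp [upd, hb]

theorem upd_congr {h : PP} {r r' : Cantor} {K : ℕ} (hr : ∀ k < K, r k = r' k) {i : Bool} {n : ℕ}
    (hn : 4 * n + 4 ≤ K) : upd h r i n = upd h r' i n := by
  unfold upd dec
  rw [hr _ (lt_of_lt_of_le (bitPos_lt i n false) hn), hr _ (lt_of_lt_of_le (bitPos_lt i n true) hn)]

/-- a real coding a given total pair on `[K, L)`, nothing elsewhere, and a given real below `4K` -/
def enc (r : Cantor) (K L : ℕ) (v : Pt) : Cantor :=
  fun p => if p < 4 * K then r p else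
    if p < 4 * L then
      (if p % 4 = 0 then true else if p % 4 = 1 then v false (p / 4) else
        if p % 4 = 2 then true else v true (p / 4))
    else false

theorem enc_lt {r : Cantor} {K L : ℕ} {v : Pt} {p : ℕ} (hp : p < 4 * K) :
    enc r K L v p = r p := by simp [enc, hp]

theorem dec_enc_mid {r : Cantor} {K L : ℕ} {v : Pt} {i : Bool} {n : ℕ} (h1 : K ≤ n) (h2 : n < L) :
    dec (enc r K L v) i n = some (v i n) := by
  have e1 : ¬ (4 * n < 4 * K) := by omega
  have e2 : ¬ (4 * n + 1 < 4 * K) := by omega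
  have e3 : ¬ (4 * n + 2 < 4 * K) := by omega
  have e4 : ¬ (4 * n + 3 < 4 * K) := by omega
  have f1 : (4 * n < 4 * L) := by omega
  have f2 : (4 * n + 1 < 4 * L) := by omega
  have f3 : (4 * n + 2 < 4 * L) := by omega
  have f4 : (4 * n + 3 < 4 * L) := by omega
  have g1 : (4 * n) % 4 = 0 := by omega
  have g2 : (4 * n + 1) % 4 = 1 := by omega
  have g3 : (4 * n + 2) % 4 = 2 := by omega
  have g4 : (4 * n + 3) % 4 = 3 := by omega
  have d2 : (4 * n + 1) / 4 = n := by omega
  have d4 : (4 * n + 3) / 4 = n := by omega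
  cases i
  · simp [dec, bitPos, enc, e1, e2, f1, f2, g1, g2, d2]
  · simp [dec, bitPos, enc, e3, e4, f3, f4, g3, g4, d4]

theorem dec_enc_ge {r : Cantor} {K L : ℕ} {v : Pt} {i : Bool} {n : ℕ} (hK : K ≤ L) (h2 : L ≤ n) :
    dec (enc r K L v) i n = none := by
  have e1 : ¬ (4 * n < 4 * K) := by omega
  have e3 : ¬ (4 * n + 2 < 4 * K) := by omega
  have f1 : ¬ (4 * n < 4 * L) := by omega
  have f3 : ¬ (4 * n + 2 < 4 * L) := by omega
  cases i
  · simp [dec, bitPos, enc, e1, f1]
  · simp [dec, bitPos, enc, e3, f3]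

/-! ### The generic open sets -/

/-- witness for being in the `M`-th open set, all relevant bits of `r` being below `K` -/
def Wit (c : CC) (h : PP) (M K : ℕ) (r : Cantor) : Prop :=
  (∃ N, M ≤ N ∧ ∃ N', 4 * N' ≤ K ∧ Blk c h (upd h r) N N') ∧
    ∀ i, ∃ n, M ≤ n ∧ 4 * n + 4 ≤ K ∧ upd h r i n = none

theorem Wit.congr {c : CC} {h : PP} {M K : ℕ} {r r' : Cantor} (hw : Wit c h M K r)
    (hr : ∀ k < K, r k = r' k) : Wit c h M K r' := by
  obtain ⟨⟨N, hN, N', hN', hb⟩, h2⟩ := hw
  refine ⟨⟨N, hN, N', hN', hb.congr ?_⟩, ?_⟩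
  · intro i k hk
    exact upd_congr hr (by omega)
  · intro i
    obtain ⟨n, hn, hnK, h3⟩ := h2 i
    exact ⟨n, hn, hnK, by rw [← h3]; exact (upd_congr hr hnK).symm⟩

theorem Wit.mono {c : CC} {h : PP} {M K K' : ℕ} {r : Cantor} (hw : Wit c h M K r) (hK : K ≤ K') :
    Wit c h M K' r := by
  obtain ⟨⟨N, hN, N', hN', hb⟩, h2⟩ := hw
  refine ⟨⟨N, hN, N', hN'.trans hK, hb⟩, ?_⟩
  intro i
  obtain ⟨n, hn, hnK, h3⟩ := h2 i
  exact ⟨n, hn, hnK.trans hK, h3⟩

theorem Wit.dense {c : CC} {h : PP} (hf : FreeP h) (M K : ℕ) (r : Cantor) :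
    ∃ r' K', (∀ k < K, r k = r' k) ∧ Wit c h M K' r' := by
  obtain ⟨N', hN', v, hv, hz⟩ := block_exists c h (max M K)
  obtain ⟨n0, hn0, hn0'⟩ := hf false N'
  obtain ⟨n1, hn1, hn1'⟩ := hf true N'
  refine ⟨enc r (max M K) N' v, 4 * (N' + n0 + n1) + 4, ?_, ?_, ?_⟩
  · intro k hk
    rw [enc_lt]
    have := le_max_right M K
    omega
  · refine ⟨max M K, le_max_left _ _, N', by omega, hN', ?_, ?_⟩
    · intro i k hk hk'
      cases hh : h i k with
      | none => rw [upd_none hh, dec_enc_mid hk hk']; simp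
      | some b => rw [upd_some hh]; simp
    · intro l hl
      apply hz
      intro i k hk hk'
      have := hl i k hk hk'
      cases hh : h i k with
      | none =>
        rw [upd_none hh, dec_enc_mid hk hk'] at this
        exact Option.some.inj this
      | some b =>
        rw [upd_some hh] at this
        rw [← Option.some.inj this]
        exact hv i k hk hk' b hh
  · intro i
    cases i
    · refine ⟨n0, (le_max_left _ _).trans (hN'.trans hn0), by omega, ?_⟩
      rw [upd_none hn0', dec_enc_ge hN' hn0]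
    · refine ⟨n1, (le_max_left _ _).trans (hN'.trans hn1), by omega, ?_⟩
      rw [upd_none hn1', dec_enc_ge hN' hn1]

end Pool.Agent.LibAvoid
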