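import Mathlib

/-!
# Strongly avoiding sets and the parametrized diamond for the uniformity of the meagre ideal

Definitions used in the statement of the main result.
-/

set_option autoImplicit false

open Cardinal Ordinal Set Topology

namespace Pool.Agent.LibAvoid

/-- The Cantor space `2^ω` (with the product topology). -/
abbrev Cantor : Type := ℕ → Bool

/-- A set `A ⊆ 2^ω` is `κ`-dense if it meets every nonempty open set in exactly `κ` points. -/
def KDense (κ : Cardinal.{0}) (A : Set Cantor) : Prop :=
  ∀ U : Set Cantor, IsOpen U → U.Nonempty → #(A ∩ U : Set Cantor) = κ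

/-- `X` strongly avoids `Y`: for every `Z ⊆ X` with `|Z| = |X|` and every continuous `f : Z → Y`
(subspace topologies) the image of `f` has cardinality `< |X|`. -/
def StronglyAvoids (X Y : Set Cantor) : Prop :=
  ∀ Z : Set Cantor, Z ⊆ X → #Z = #X → ∀ f : Z → Y, Continuous f → #(range f) < #X

/-- The well-ordered type of order type `ω₁`. -/
abbrev Om : Type := (ω_ (1 : Ordinal.{0})).ToType

/-- The restriction of `f : ω₁ → 2` to `δ = {β : β < δ}`. -/
def restr (f : Om → Bool) (δ : Om) : Iio δ → Bool := fun β => f β

/-- The finite initial segment of length `k` of an infinite binary sequence. -/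
def initSeg (r : Cantor) (k : ℕ) : List Bool := List.ofFn fun i : Fin k => r i

/-- The closed set coded by `c : 2^{<ω} → 2` (the set of all `r` all of whose finite initial
segments have value `true`). -/
def closedOf (c : List Bool → Bool) : Set Cantor := {r | ∀ k, c (initSeg r k) = true}

/-- The union of the closed sets coded by the members of a sequence of codes. -/
def meagreOf (c : ℕ → List Bool → Bool) : Set Cantor := ⋃ n, closedOf (c n)

/-- The parametrized diamond principle `◇(non(𝓜))` of Moore, Hrušák and Džamonja:
for every Borel `F : 2^{<ω₁} → 𝓜` (that is, the restriction of `F` to `2^δ` is Borel for every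
`δ < ω₁`; a meagre set is given by a sequence of codes for closed nowhere dense sets) there is
`g : ω₁ → 2^ω` such that for every `f : ω₁ → 2` the set of all `δ < ω₁` with
`g(δ) ∉ F(f ↾ δ)` is stationary. -/
def DiamondNonMeagre : Prop :=
  ∀ F : (δ : Om) → (Iio δ → Bool) → ℕ → List Bool → Bool,
    (∀ δ, Measurable (F δ)) →
    (∀ δ f n, IsNowhereDense (closedOf (F δ f n))) →
    ∃ g : Om → Cantor, ∀ f : Om → Bool,
      IsStationary {δ : Om | g δ ∉ meagreOf (F δ (restr f δ))}

end Pool.Agent.LibAvoid
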