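import Pool.Agent.LibAvoid.Core

set_option autoImplicit false

open Cardinal Ordinal Set Topology

namespace Pool.Agent.LibAvoid

def firstSome (q : ℕ → Option Bool) : ℕ → Option Bool
  | 0 => q 0
  | k + 1 => (firstSome q k).orElse fun _ => q (k + 1)

theorem firstSome_succ_eq (q : ℕ → Option Bool) (k : ℕ) (v : Option Bool) :
    firstSome q (k + 1) = v ↔
      (v ≠ none ∧ firstSome q k = v) ∨ (firstSome q k = none ∧ q (k + 1) = v) := by
  simp only [firstSome]
  cases h : firstSome q k with
  | none => cases v <;> simp
  | some b => cases v <;> simp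

theorem firstSome_eq_none {q : ℕ → Option Bool} {k : ℕ} :
    firstSome q k = none ↔ ∀ j ≤ k, q j = none := by
  induction k with
  | zero => simp [firstSome]
  | succ k ih =>
    rw [firstSome_succ_eq]
    constructor
    · rintro (⟨h, -⟩ | ⟨h, h'⟩)
      · exact absurd rfl h
      · intro j hj
        rcases Nat.lt_or_ge k j with hkj | hkj
        · have : j = k + 1 := by omega
          rw [this]; exact h'
        · exact ih.1 h j hkj
    · intro h
      right
      exact ⟨ih.2 fun j hj => h j (by omega), h _ le_rfl⟩

theorem firstSome_of {q : ℕ → Option Bool} {k j : ℕ} {b : Bool} (hj : j ≤ k)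
    (hq : q j = some b) : ∃ j' ≤ j, ∃ b', q j' = some b' ∧ firstSome q k = some b' := by
  induction k with
  | zero =>
    have : j = 0 := by omega
    subst this
    exact ⟨0, le_rfl, b, hq, hq⟩
  | succ k ih =>
    by_cases hk : j ≤ k
    · obtain ⟨j', hj', b', hb', hf⟩ := ih hk
      refine ⟨j', hj', b', hb', ?_⟩
      rw [firstSome_succ_eq]
      exact Or.inl ⟨by simp, hf⟩
    · have hj1 : j = k + 1 := by omega
      subst hj1
      cases hf : firstSome q k with
      | none =>
        refine ⟨k + 1, le_rfl, b, hq, ?_⟩
        rw [firstSome_succ_eq]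
        exact Or.inr ⟨hf, hq⟩
      | some b' =>
        have h1 : ¬ ∀ i ≤ k, q i = none := by
          rw [← firstSome_eq_none, hf]; simp
        push Not at h1
        obtain ⟨i, hi, hqi⟩ := h1
        obtain ⟨b'', hb''⟩ := Option.ne_none_iff_exists'.1 hqi
        -- the first index
        have h2 : ∃ i ≤ k, q i = some b' := by
          clear hi hqi hb'' hq hj ih hk
          induction k with
          | zero => exact ⟨0, le_rfl, hf⟩
          | succ k ih =>
            rcases (firstSome_succ_eq _ _ _).1 hf with ⟨_, h⟩ | ⟨_, h⟩
            · obtain ⟨i, hi, h'⟩ := ih h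
              exact ⟨i, by omega, h'⟩
            · exact ⟨k + 1, le_rfl, h⟩
        obtain ⟨i', hi', hqi'⟩ := h2
        refine ⟨i', by omega, b', hqi', ?_⟩
        rw [firstSome_succ_eq]
        exact Or.inl ⟨by simp, hf⟩

/-- the state -/
def st (p : ℕ → ℕ → Option Bool) : ℕ → ℕ
  | 0 => 0
  | n + 1 => if firstSome (fun j => p j n) (st p n) = none then st p n + 1 else st p n

def limS (p : ℕ → ℕ → Option Bool) (n : ℕ) : Option Bool := firstSome (fun j => p j n) (st p n)

def lim (p : ℕ → PP) : PP := fun i n => limS (fun j => p j i) n

theorem st_succ_of_none {p : ℕ → ℕ → Option Bool} {n : ℕ} (h : limS p n = none) :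
    st p (n + 1) = st p n + 1 := by
  simp only [limS] at h
  simp [st, h]

theorem st_succ_of_some {p : ℕ → ℕ → Option Bool} {n : ℕ} (h : limS p n ≠ none) :
    st p (n + 1) = st p n := by
  simp only [limS] at h
  simp [st, h]

theorem st_mono (p : ℕ → ℕ → Option Bool) : Monotone (st p) := by
  refine monotone_nat_of_le_succ fun n => ?_
  by_cases h : limS p n = none
  · rw [st_succ_of_none h]; omega
  · rw [st_succ_of_some h]

theorem limS_free {p : ℕ → ℕ → Option Bool}
    (hf : ∀ k m, ∃ n ≥ m, ∀ j ≤ k, p j n = none) (m : ℕ) : ∃ n ≥ m, limS p n = none := by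
  by_contra hcon
  push Not at hcon
  have hc : ∀ n ≥ m, st p n = st p m := by
    intro n hn
    induction n, hn using Nat.le_induction with
    | base => rfl
    | succ n hn ih => rw [st_succ_of_some (hcon n hn), ih]
  obtain ⟨n, hn, h⟩ := hf (st p m) m
  refine hcon n hn ?_
  simp only [limS]
  rw [firstSome_eq_none, hc n hn]
  exact h

theorem st_unbounded {p : ℕ → ℕ → Option Bool}
    (hf : ∀ k m, ∃ n ≥ m, ∀ j ≤ k, p j n = none) (K : ℕ) : ∃ n, K ≤ st p n := by
  induction K with
  | zero => exact ⟨0, Nat.zero_le _⟩
  | succ K ih =>
    obtain ⟨n, hn⟩ := ih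
    obtain ⟨n', hn', h⟩ := limS_free hf n
    refine ⟨n' + 1, ?_⟩
    rw [st_succ_of_none h]
    have := st_mono p hn'
    omega

theorem limS_ext {p : ℕ → ℕ → Option Bool}
    (hf : ∀ k m, ∃ n ≥ m, ∀ j ≤ k, p j n = none)
    (hc : ∀ j j', ∃ m, ∀ n ≥ m, ∀ b b', p j n = some b → p j' n = some b' → b = b') (j : ℕ) :
    ∃ m, ∀ n ≥ m, ∀ b, p j n = some b → limS p n = some b := by
  classical
  obtain ⟨n0, hn0⟩ := st_unbounded hf j
  choose m hm using fun j' => hc j j'
  refine ⟨n0 + (Finset.range (j + 1)).sup m, ?_⟩
  intro n hn b hb
  have h1 : j ≤ st p n := hn0.trans (st_mono p (by omega))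
  obtain ⟨j', hj', b', hb', hfs⟩ := firstSome_of (q := fun j => p j n) h1 hb
  have h2 : m j' ≤ (Finset.range (j + 1)).sup m :=
    Finset.le_sup (f := m) (Finset.mem_range.2 (by omega))
  have h3 := hm j' n (by omega) b b' hb hb'
  rw [limS, hfs, h3]

/-- finite families have a common free part and all members are pairwise coherent -/
structure Coh (p : ℕ → PP) : Prop where
  free : ∀ i k m, ∃ n ≥ m, ∀ j ≤ k, p j i n = none
  coh : ∀ i j j', ∃ m, ∀ n ≥ m, ∀ b b', p j i n = some b → p j' i n = some b' → b = b'

theorem Coh.lim_free {p : ℕ → PP} (h : Coh p) : FreeP (lim p) :=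
  fun i m => limS_free (p := fun j => p j i) (h.free i) m

theorem Coh.lim_ext {p : ℕ → PP} (h : Coh p) (j : ℕ) : AE (p j) (lim p) :=
  fun i => limS_ext (p := fun j => p j i) (h.free i) (h.coh i) j

/-! ### Measurability -/

section Meas

variable {α : Type} [MeasurableSpace α]

theorem meas_firstSome {q : α → ℕ → Option Bool} (hq : ∀ j v, Measurable fun a => q a j = v)
    (k : ℕ) (v : Option Bool) : Measurable fun a => firstSome (q a) k = v := by
  induction k generalizing v with
  | zero => exact hq 0 v
  | succ k ih =>
    simp only [firstSome_succ_eq]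
    exact ((measurable_const).and (ih v)).or ((ih none).and (hq (k + 1) v))

theorem st_succ_eq (p : ℕ → ℕ → Option Bool) (n k : ℕ) :
    st p (n + 1) = k ↔
      (∃ k', st p n = k' ∧ firstSome (fun j => p j n) k' = none ∧ k' + 1 = k) ∨
      (∃ k', st p n = k' ∧ ¬ firstSome (fun j => p j n) k' = none ∧ k' = k) := by
  by_cases h : firstSome (fun j => p j n) (st p n) = none
  · simp [st, h]
  · simp [st, h]

theorem meas_st {p : α → ℕ → ℕ → Option Bool} (hp : ∀ j n v, Measurable fun a => p a j n = v)
    (n k : ℕ) : Measurable fun a => st (p a) n = k := by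
  induction n generalizing k with
  | zero =>
    simp only [st]
    exact measurable_const
  | succ n ih =>
    simp only [st_succ_eq]
    refine Measurable.or ?_ ?_
    · refine Measurable.exists fun k' => ?_
      exact (ih k').and ((meas_firstSome (fun j v => hp j n v) k' none).and measurable_const)
    · refine Measurable.exists fun k' => ?_
      exact (ih k').and ((meas_firstSome (fun j v => hp j n v) k' none).not.and measurable_const)

theorem meas_limS {p : α → ℕ → ℕ → Option Bool} (hp : ∀ j n v, Measurable fun a => p a j n = v)
    (n : ℕ) (v : Option Bool) : Measurable fun a => limS (p a) n = v := by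
  have : (fun a => limS (p a) n = v) =
      fun a => ∃ k, st (p a) n = k ∧ firstSome (fun j => p a j n) k = v := by
    funext a
    simp [limS]
  rw [this]
  refine Measurable.exists fun k => ?_
  exact (meas_st hp n k).and (meas_firstSome (fun j v => hp j n v) k v)

theorem meas_lim {p : α → ℕ → PP} (hp : ∀ j i n v, Measurable fun a => p a j i n = v)
    (i : Bool) (n : ℕ) (v : Option Bool) : Measurable fun a => lim (p a) i n = v :=
  meas_limS (p := fun a j n => p a j i n) (fun j n v => hp j i n v) n v

variable {c : α → CC} {h : α → PP} (hc : ∀ s t, Measurable fun a => c a s t = true)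
  (hh : ∀ i n v, Measurable fun a => h a i n = v)

include hc in
theorem meas_cm (m : ℕ) (z : Pt) : Measurable fun a => cm (c a) m z := by
  unfold cm cAt
  exact Measurable.exists fun j => measurable_const.and (hc _ _)

include hh in
theorem meas_Ag (n m : ℕ) (z : Pt) : Measurable fun a => Ag (h a) n m z := by
  unfold Ag
  exact Measurable.forall fun i => Measurable.forall fun k => Measurable.imp measurable_const
    (Measurable.imp measurable_const (Measurable.forall fun b =>
      Measurable.imp (hh _ _ _) measurable_const))

include hc hh in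
theorem meas_DD (n : ℕ) (z : Pt) : Measurable fun a => DD (c a) (h a) n z := by
  unfold DD Dead
  refine (meas_cm hc n z).or ?_
  exact Measurable.forall fun m => Measurable.imp measurable_const (Measurable.forall fun l =>
    Measurable.imp measurable_const (Measurable.imp (meas_Ag hh _ _ _) (meas_cm hc _ _).not))

theorem upd_eq_iff (g : PP) (r : Cantor) (i : Bool) (n : ℕ) (v : Option Bool) :
    upd g r i n = v ↔ (v ≠ none ∧ g i n = v) ∨ (g i n = none ∧ dec r i n = v) := by
  cases hg : g i n with
  | none => rw [upd_none hg]; cases v <;> simp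
  | some b => rw [upd_some hg]; cases v <;> simp

include hh in
theorem meas_upd (r : Cantor) (i : Bool) (n : ℕ) (v : Option Bool) :
    Measurable fun a => upd (h a) r i n = v := by
  simp only [upd_eq_iff]
  exact (measurable_const.and (hh _ _ _)).or ((hh _ _ _).and measurable_const)

include hc hh in
theorem meas_Blk (r : Cantor) (N N' : ℕ) :
    Measurable fun a => Blk (c a) (h a) (upd (h a) r) N N' := by
  unfold Blk
  refine measurable_const.and (Measurable.and ?_ ?_)
  · exact Measurable.forall fun i => Measurable.forall fun k => Measurable.imp measurable_const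
      (Measurable.imp measurable_const (meas_upd hh r i k none).not)
  · refine Measurable.forall fun l => Measurable.imp ?_ (meas_DD hc hh _ _)
    exact Measurable.forall fun i => Measurable.forall fun k => Measurable.imp measurable_const
      (Measurable.imp measurable_const (meas_upd hh r i k _))

include hc hh in
theorem meas_Wit (M K : ℕ) (r : Cantor) : Measurable fun a => Wit (c a) (h a) M K r := by
  unfold Wit
  refine Measurable.and ?_ ?_
  · exact Measurable.exists fun N => measurable_const.and (Measurable.exists fun N' =>
      measurable_const.and (meas_Blk hc hh r N N'))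
  · exact Measurable.forall fun i => Measurable.exists fun n => measurable_const.and
      (measurable_const.and (meas_upd hh r i n none))

include hh in
theorem meas_FreeP : Measurable fun a => FreeP (h a) := by
  unfold FreeP
  exact Measurable.forall fun i => Measurable.forall fun m => Measurable.exists fun n =>
    measurable_const.and (hh i n none)

end Meas

end Pool.Agent.LibAvoid
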