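import Pool.Agent.LibAvoid.Points

set_option autoImplicit false

open Cardinal Ordinal Set Topology

namespace Pool.Agent.LibAvoid

variable {g : Om → Cantor} {x : Om → Pt}

/-- the pairs of the graph of `f` with both indices at least `δ` -/
def Gam (x : Om → Pt) (i : Bool) {Z : Set Cantor} (f : Z → XX x (!i)) (δ : Om) : Set Pt :=
  {z | (∃ ζ : Z, z i = ζ ∧ z (!i) = f ζ) ∧ ∀ j, ∃ α, δ ≤ α ∧ E0 (z j) (x α j)}

theorem Gam_anti (x : Om → Pt) (i : Bool) {Z : Set Cantor} (f : Z → XX x (!i)) {δ δ' : Om}
    (h : δ ≤ δ') : Gam x i f δ' ⊆ Gam x i f δ := by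
  rintro z ⟨h1, h2⟩
  refine ⟨h1, fun j => ?_⟩
  obtain ⟨α, hα, h3⟩ := h2 j
  exact ⟨α, h.trans hα, h3⟩

theorem Gam_nonempty (x : Om → Pt) (i : Bool) {Z : Set Cantor} (hZ : Z ⊆ XX x i)
    (f : Z → XX x (!i)) (hr : ¬ (range f).Countable) (δ : Om) : (Gam x i f δ).Nonempty := by
  classical
  by_contra hcon
  rw [Set.not_nonempty_iff_eq_empty] at hcon
  apply hr
  -- points of small index
  have hsmall : ∀ j, (⋃ α : Iio δ, {z : Cantor | E0 z (x α j)}).Countable :=
    fun j => countable_iUnion fun α => countable_E0 _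
  have h1 : (f '' {ζ : Z | (ζ : Cantor) ∈ ⋃ α : Iio δ, {z : Cantor | E0 z (x α i)}}).Countable := by
    refine Set.Countable.image ?_ f
    exact (hsmall i).preimage Subtype.val_injective
  have h2 : {y : XX x (!i) | (y : Cantor) ∈ ⋃ α : Iio δ, {z : Cantor | E0 z (x α (!i))}}.Countable :=
    (hsmall (!i)).preimage Subtype.val_injective
  refine (h1.union h2).mono ?_
  rintro y ⟨ζ, rfl⟩
  by_contra hy
  rw [Set.mem_union, not_or] at hy
  obtain ⟨hy1, hy2⟩ := hy
  obtain ⟨α, hα⟩ := hZ ζ.2
  obtain ⟨β, hβ⟩ := (f ζ).2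
  have hα' : δ ≤ α := by
    by_contra hlt
    apply hy1
    exact ⟨ζ, mem_iUnion.2 ⟨⟨α, not_le.1 hlt⟩, hα⟩, rfl⟩
  have hβ' : δ ≤ β := by
    by_contra hlt
    apply hy2
    exact mem_iUnion.2 ⟨⟨β, not_le.1 hlt⟩, hβ⟩
  have : (fun j => if j = i then (ζ : Cantor) else (f ζ : Cantor)) ∈ Gam x i f δ := by
    refine ⟨⟨ζ, by simp, by simp⟩, ?_⟩
    intro j
    by_cases hj : j = i
    · subst hj
      exact ⟨α, hα', by simpa using hα⟩
    · have hj' : j = !i := by cases i <;> cases j <;> simp_all
      subst hj'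
      refine ⟨β, hβ', ?_⟩
      simpa using hβ
  rw [hcon] at this
  exact this

theorem avoid (hD : DiamondNonMeagre) : ∃ X Y : Set Cantor,
    KDense ℵ₁ X ∧ KDense ℵ₁ Y ∧ StronglyAvoids X Y ∧ StronglyAvoids Y X := by
  classical
  obtain ⟨e, he⟩ := exists_code
  obtain ⟨g, hg⟩ := hD (FF e) (meas_FF e) (nowhereDense_FF e)
  obtain ⟨x, hx1, hx2⟩ := exists_points g
  have main : ∀ i, StronglyAvoids (XX x i) (XX x (!i)) := by
    intro i Z hZ _ f hf
    rw [mk_XX hx2 i]
    by_contra hcon
    have hunc : ¬ (range f).Countable := by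
      intro hc
      apply hcon
      exact lt_of_le_of_lt (Cardinal.le_aleph0_iff_set_countable.2 hc) Cardinal.aleph0_lt_aleph_one
    -- the code
    let P : List Bool × List Bool → Om → Prop := fun p δ => ∀ z ∈ Gam x i f δ,
      ¬ (initSeg (z false) p.1.length = p.1 ∧ initSeg (z true) p.2.length = p.2)
    let c : CC := fun s t => decide (∃ δ, P (s, t) δ)
    have hδ0 : ∃ δ₀ : Om, ∀ p, (∃ δ, P p δ) → P p δ₀ := by
      have h1 : ∀ p : List Bool × List Bool, ∃ δ : Om, (∃ δ', P p δ') → P p δ := by
        intro p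
        by_cases h : ∃ δ', P p δ'
        · obtain ⟨δ', hδ'⟩ := h
          exact ⟨δ', fun _ => hδ'⟩
        · exact ⟨Classical.arbitrary Om, fun h' => absurd h' h⟩
      choose d hd using h1
      obtain ⟨δ₀, hδ₀⟩ := bdd_of_countable_fun d
      exact ⟨δ₀, fun p hp z hz => hd p hp z (Gam_anti x i f (hδ₀ p).le hz)⟩
    obtain ⟨δ₀, hδ₀⟩ := hδ0
    -- consequences for `c`
    have hc1 : ∀ δ, δ₀ ≤ δ → ∀ z ∈ Gam x i f δ, ∀ n w, cAt c n w → ¬ EqUp n z w := by
      intro δ hδ z hz n w hw heq
      have h1 : ∃ δ, P (initSeg (w false) n, initSeg (w true) n) δ := by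
        simpa [cAt, c] using hw
      have h2 := hδ₀ _ h1 z (Gam_anti x i f hδ hz)
      apply h2
      simp only [length_initSeg]
      exact ⟨(initSeg_eq_iff _ _ _).2 (heq false), (initSeg_eq_iff _ _ _).2 (heq true)⟩
    have hc2 : ∀ n w, ¬ cAt c n w → ∀ δ, ∃ z ∈ Gam x i f δ, EqUp n z w := by
      intro n w hw δ
      by_contra hcon'
      push Not at hcon'
      apply hw
      have h1 : ∃ δ, P (initSeg (w false) n, initSeg (w true) n) δ := by
        refine ⟨δ, fun z hz h2 => hcon' z hz ?_⟩
        simp only [length_initSeg] at h2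
        intro j k hk
        cases j
        · exact (initSeg_eq_iff _ _ _).1 h2.1 k hk
        · exact (initSeg_eq_iff _ _ _).1 h2.2 k hk
      simpa [cAt, c] using h1
    -- the coding function
    have hF : ∃ φ : Om → Bool, (∀ s t, φ (e (Sum.inl (s, t))) = c s t) ∧
        (∀ β i n, φ (e (Sum.inr (β, (i, n, false)))) = (HH g β i n).isSome) ∧
        (∀ β i n, φ (e (Sum.inr (β, (i, n, true)))) = (HH g β i n).getD false) := by
      let ψ : Idx → Bool := fun p => match p with
        | Sum.inl (s, t) => c s t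
        | Sum.inr (β, (i, n, false)) => (HH g β i n).isSome
        | Sum.inr (β, (i, n, true)) => (HH g β i n).getD false
      refine ⟨fun α => if h : ∃ p, e p = α then ψ h.choose else false, ?_⟩
      have key : ∀ p, (if h : ∃ q, e q = e p then ψ h.choose else false) = ψ p := by
        intro p
        have h : ∃ q, e q = e p := ⟨p, rfl⟩
        simp only [h, dif_pos]
        congr 1
        exact he h.choose_spec
      exact ⟨fun s t => key _, fun β i n => key _, fun β i n => key _⟩
    obtain ⟨φ, hφ1, hφ2, hφ3⟩ := hF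
    -- the club
    obtain ⟨δ₁, hδ₁⟩ := bdd_of_countable_fun
      (fun p : Option (List Bool × List Bool) => match p with
        | none => δ₀
        | some q => e (Sum.inl q))
    have hclub := isClub_closure (κ := Bool × ℕ × Bool) (fun β q => e (Sum.inr (β, q))) δ₁
    obtain ⟨δ, hδ, hδ2⟩ := hg φ hclub
    obtain ⟨hδ3, hδ4⟩ := hδ2
    have hδ5 : δ₀ ≤ δ := ((hδ₁ none).trans hδ3).le
    -- decoding is correct
    have hcOf : cOf e δ (restr φ δ) = c := by
      funext s t
      have h1 : e (Sum.inl (s, t)) < δ := (hδ₁ (some (s, t))).trans hδ3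
      simp only [cOf, bit, h1, dif_pos, restr]
      exact hφ1 s t
    have hhOf : ∀ β : Om, β < δ → hOf e δ (restr φ δ) β = HH g β := by
      intro β hβ
      funext j n
      have h1 : e (Sum.inr (β, (j, n, false))) < δ := hδ4 β hβ _
      have h2 : e (Sum.inr (β, (j, n, true))) < δ := hδ4 β hβ _
      simp only [hOf, bit, h1, h2, dif_pos, restr, hφ2, hφ3]
      cases HH g β j n <;> simp
    have hhs : hs e δ (restr φ δ) = HS g δ := by
      unfold hs HS
      congr 1
      funext j
      unfold seqq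
      cases h : en δ j with
      | none => rfl
      | some β => exact hhOf β.1 β.2
    have hfree : FreeP (hs e δ (restr φ δ)) := by rw [hhs]; exact (HH_main g δ).2.1
    have hwit : ∀ M, ∃ K, Wit c (HS g δ) M K (g δ) := by
      intro M
      have := not_mem_meagre hfree hδ M
      rwa [hcOf, hhs] at this
    -- the step was taken
    have hstep : HH g δ = upd (HS g δ) (g δ) := by
      rw [HH_eq]
      unfold stepP
      rw [if_pos]
      intro j m
      obtain ⟨K, hK⟩ := hwit m
      obtain ⟨n, hn, _, h3⟩ := hK.2 j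
      exact ⟨n, hn, h3⟩
    -- take a pair
    obtain ⟨z, hz⟩ := Gam_nonempty x i hZ f hunc δ
    obtain ⟨⟨ζ, hζ1, hζ2⟩, hind⟩ := id hz
    -- it extends HH g δ almost everywhere
    have hext : ∃ M, ∀ j k, M ≤ k → ∀ b, HH g δ j k = some b → z j k = b := by
      have h1 : ∀ j, ∃ M, ∀ k, M ≤ k → ∀ b, HH g δ j k = some b → z j k = b := by
        intro j
        obtain ⟨α, hα, m, hm⟩ := hind j
        have h2 : AE (HH g δ) (HH g α) := by
          rcases hα.eq_or_lt with rfl | hlt
          · exact AE.rfl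
          · exact (HH_main g α).2.2.2 δ hlt
        obtain ⟨m', hm'⟩ := h2 j
        refine ⟨max m m', fun k hk b hb => ?_⟩
        rw [hm k ((le_max_left _ _).trans hk)]
        exact hx1 α j k b (hm' k ((le_max_right _ _).trans hk) b hb)
      choose M hM using h1
      exact ⟨max (M false) (M true), fun j k hk b hb => hM j k
        (by cases j
            · exact (le_max_left _ _).trans hk
            · exact (le_max_right _ _).trans hk) b hb⟩
    obtain ⟨M, hM⟩ := hext
    obtain ⟨K, ⟨N, hN, N', _, hblk⟩, _⟩ := hwit M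
    have hNN' : N ≤ N' := hblk.1
    have hdd : DD c (HS g δ) N' z := by
      refine hblk.apply ?_
      intro j k hk hk'
      obtain ⟨b, hb⟩ := Option.ne_none_iff_exists'.1 (hblk.2.1 j k hk hk')
      rw [hb]
      rw [← hstep] at hb
      rw [hM j k (hN.trans hk) b hb]
    rcases hdd with hcm | hdead
    · obtain ⟨m, _, hcA⟩ := hcm
      exact hc1 δ hδ5 z hz m z hcA (EqUp.refl _ _)
    · -- continuity
      obtain ⟨n, hn, hn'⟩ := (HH_main g δ).2.1 (!i) N'
      have hcont : ∃ m, ∀ ζ' : Z, (∀ k < m, (ζ : Cantor) k = (ζ' : Cantor) k) →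
          (f ζ' : Cantor) n = (f ζ : Cantor) n := by
        have h1 : Continuous fun ζ : Z => (f ζ : Cantor) n :=
          (continuous_apply n).comp (continuous_subtype_val.comp hf)
        have h2 : {ζ' : Z | (f ζ' : Cantor) n = (f ζ : Cantor) n} ∈ 𝓝 ζ := by
          refine IsOpen.mem_nhds ?_ rfl
          exact (isOpen_discrete {(f ζ : Cantor) n}).preimage h1
        rw [nhds_subtype_eq_comap, Filter.mem_comap] at h2
        obtain ⟨U, hU, hsub⟩ := h2
        obtain ⟨m, hm⟩ := mem_nhds_prefix hU
        exact ⟨m, fun ζ' hζ' => hsub (hm ζ' hζ')⟩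
      obtain ⟨m, hm⟩ := hcont
      let w : Pt := Function.update z (!i) (Function.update (z (!i)) n (!(z (!i) n)))
      have hwi : w i = z i := by
        simp [w, Function.update_of_ne]
      have hwn : w (!i) n = !(z (!i) n) := by simp [w]
      have hwk : ∀ k, k ≠ n → w (!i) k = z (!i) k := by
        intro k hk
        simp [w, Function.update_of_ne hk]
      have hcase : ∀ j, j = i ∨ j = !i := by
        intro j; cases i <;> cases j <;> simp
      have hcA : cAt c (max m (n + 1)) w := by
        by_contra hnc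
        obtain ⟨z', ⟨⟨ζ', hζ'1, hζ'2⟩, _⟩, heq⟩ := hc2 _ _ hnc δ
        have h1 : ∀ k < m, (ζ : Cantor) k = (ζ' : Cantor) k := by
          intro k hk
          rw [← hζ1, ← hζ'1, heq i k (lt_of_lt_of_le hk (le_max_left _ _)), hwi]
        have h2 := hm ζ' h1
        have h3 := heq (!i) n (lt_of_lt_of_le (Nat.lt_succ_self n) (le_max_right _ _))
        rw [hwn, hζ'2, h2, hζ2] at h3
        cases hh : (f ζ : Cantor) n <;> simp [hh] at h3
      refine hdead.of_pt (m := max m (n + 1)) (w := w) ?_ ?_ ?_ ⟨_, le_rfl, hcA⟩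
      · have := le_max_right m (n + 1)
        omega
      · intro j k hk
        rcases hcase j with rfl | rfl
        · rw [hwi]
        · rw [hwk k (by omega)]
      · intro j k hk _ b hb
        have hzb : z j k = b := by
          refine hM j k (hN.trans (hNN'.trans hk)) b ?_
          rw [hstep]
          exact upd_some hb
        rcases hcase j with rfl | rfl
        · rw [hwi]; exact hzb
        · by_cases hkn : k = n
          · subst hkn
            rw [hn'] at hb
            exact absurd hb (by simp)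
          · rw [hwk k hkn]; exact hzb
  exact ⟨XX x false, XX x true, kdense_XX hx2 false, kdense_XX hx2 true, main false, main true⟩

end Pool.Agent.LibAvoid
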