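import Pool.Agent.LibAvoid.Defs

set_option autoImplicit false

open Cardinal Ordinal Set Topology

namespace Pool.Agent.LibAvoid

theorem mk_Om : #Om = ℵ₁ := by
  rw [Cardinal.mk_toType]
  simp

theorem ord_mk_Om : ord #Om = typeLT Om := by
  rw [mk_Om, Ordinal.type_toType]
  simp

instance uncountable_Om : Uncountable Om := by
  rw [← Cardinal.aleph0_lt_mk_iff, mk_Om]
  exact Cardinal.aleph0_lt_aleph_one

instance countable_Iio (δ : Om) : Countable (Iio δ) := by
  rw [← Cardinal.mk_le_aleph0_iff]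
  have h := mk_Iio_lt δ ord_mk_Om
  rw [mk_Om, ← Cardinal.succ_aleph0] at h
  exact Order.lt_succ_iff.1 h

theorem countable_Iic (δ : Om) : (Iic δ).Countable := by
  rw [← Iio_insert]
  exact Set.Countable.insert _ (countable_coe_iff.1 (countable_Iio δ))

theorem bdd_of_countable (s : Set Om) (hs : s.Countable) : ∃ δ : Om, ∀ x ∈ s, x < δ := by
  by_contra hcon
  push Not at hcon
  have h1 : (⋃ x ∈ s, Iic x).Countable := hs.biUnion fun x _ => countable_Iic x
  have h2 : (⋃ x ∈ s, Iic x) = (univ : Set Om) := by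
    ext δ
    simp only [mem_iUnion, mem_Iic, exists_prop, mem_univ, iff_true]
    obtain ⟨x, hx, hx'⟩ := hcon δ
    exact ⟨x, hx, hx'⟩
  rw [h2] at h1
  exact not_countable_univ h1

theorem bdd_of_countable_fun {ι : Type} [Countable ι] (f : ι → Om) : ∃ δ : Om, ∀ i, f i < δ := by
  obtain ⟨δ, h⟩ := bdd_of_countable (range f) (countable_range f)
  exact ⟨δ, fun i => h _ ⟨i, rfl⟩⟩

/-- the set of closure points of a countable-to-one assignment is a club -/
theorem isClub_closure {κ : Type} [Countable κ] (E : Om → κ → Om) (δ₀ : Om) :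
    IsClub {δ : Om | δ₀ < δ ∧ ∀ β < δ, ∀ k, E β k < δ} := by
  constructor
  · intro s hs hne _ a ha
    obtain ⟨x, hx⟩ := hne
    refine ⟨lt_of_lt_of_le (hs hx).1 (ha.1 hx), ?_⟩
    intro β hβ k
    obtain ⟨y, hy, hβy⟩ := (lt_isLUB_iff ha).1 hβ
    exact lt_of_lt_of_le ((hs hy).2 β hβy k) (ha.1 hy)
  · intro a
    -- iterate
    have step : ∀ δ : Om, ∃ δ' : Om, δ < δ' ∧ ∀ β ≤ δ, ∀ k, E β k < δ' := by
      intro δ
      have : Countable (Iic δ) := countable_coe_iff.2 (countable_Iic δ)
      obtain ⟨δ', h'⟩ := bdd_of_countable_fun (fun p : Option (Iic δ × κ) =>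
        match p with
        | none => δ
        | some q => E q.1 q.2)
      exact ⟨δ', h' none, fun β hβ k => h' (some (⟨β, hβ⟩, k))⟩
    choose st hst1 hst2 using step
    let d : ℕ → Om := fun n => st^[n] (max a (st δ₀))
    have hd : ∀ n, d (n + 1) = st (d n) := fun n => Function.iterate_succ_apply' _ _ _
    have hmono : StrictMono d := strictMono_nat_of_lt_succ fun n => by rw [hd]; exact hst1 _
    obtain ⟨b, hb⟩ := bdd_of_countable_fun d
    -- least upper bound
    have hne : {x : Om | ∀ n, d n ≤ x}.Nonempty := ⟨b, fun n => (hb n).le⟩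
    let L := WellFounded.min (wellFounded_lt : WellFounded ((· < ·) : Om → Om → Prop))
      {x : Om | ∀ n, d n ≤ x} hne
    have hL1 : ∀ n, d n ≤ L := WellFounded.min_mem wellFounded_lt _ hne
    have hL2 : ∀ x, (∀ n, d n ≤ x) → L ≤ x := fun x hx =>
      not_lt.1 (WellFounded.not_lt_min wellFounded_lt {x : Om | ∀ n, d n ≤ x} (x := x) hx)
    have hlt : ∀ β < L, ∃ n, β < d n := by
      intro β hβ
      by_contra hcon
      push Not at hcon
      exact absurd (hL2 β hcon) (not_le.2 hβ)
    refine ⟨L, ⟨?_, ?_⟩, ?_⟩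
    · have : δ₀ < d 0 := lt_of_lt_of_le (hst1 δ₀) (le_max_right _ _)
      exact lt_of_lt_of_le this (hL1 0)
    · intro β hβ k
      obtain ⟨n, hn⟩ := hlt β hβ
      have := hst2 (d n) β hn.le k
      rw [← hd] at this
      exact lt_of_lt_of_le this (hL1 (n + 1))
    · exact (le_max_left _ _).trans (hL1 0)

end Pool.Agent.LibAvoid
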