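import Pool.Agent.LibAvoid.Code

set_option autoImplicit false

open Cardinal Ordinal Set Topology

namespace Pool.Agent.LibAvoid

/-- equality modulo finite -/
def E0 (z w : Cantor) : Prop := ∃ m, ∀ k ≥ m, z k = w k

theorem E0.symm {z w : Cantor} (h : E0 z w) : E0 w z := by
  obtain ⟨m, hm⟩ := h
  exact ⟨m, fun k hk => (hm k hk).symm⟩

theorem E0.trans {z w v : Cantor} (h : E0 z w) (h' : E0 w v) : E0 z v := by
  obtain ⟨m, hm⟩ := h
  obtain ⟨m', hm'⟩ := h'
  exact ⟨max m m', fun k hk => (hm k ((le_max_left _ _).trans hk)).trans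
    (hm' k ((le_max_right _ _).trans hk))⟩

theorem countable_E0 (w : Cantor) : {z : Cantor | E0 z w}.Countable := by
  have h : {z : Cantor | E0 z w} ⊆ range fun s : List Bool => fun k => s.getD k (w k) := by
    rintro z ⟨m, hm⟩
    refine ⟨initSeg z m, ?_⟩
    funext k
    by_cases hk : k < m
    · simp [initSeg, hk]
    · simp [initSeg, hk, hm k (not_lt.1 hk)]
  exact (countable_range _).mono h

theorem ext_avoid (h : ℕ → Option Bool) (hf : ∀ m, ∃ n ≥ m, h n = none) (S : Set Cantor)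
    (hS : S.Countable) : ∃ z : Cantor, (∀ k b, h k = some b → z k = b) ∧ ∀ w ∈ S, ¬ E0 z w := by
  classical
  rcases S.eq_empty_or_nonempty with rfl | hne
  · exact ⟨fun k => (h k).getD false, fun k b hb => by simp [hb], by simp⟩
  obtain ⟨w, hw⟩ := hS.exists_eq_range hne
  have hinf : (Set.ofPred fun n => h n = none).Infinite := by
    rw [Set.infinite_iff_exists_gt]
    intro a
    obtain ⟨n, hn, hn'⟩ := hf (a + 1)
    exact ⟨n, hn', by omega⟩
  let cnt : ℕ → ℕ := Nat.count fun n => h n = none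
  refine ⟨fun n => match h n with
    | some b => b
    | none => !(w (Nat.unpair (cnt n)).1 n), ?_, ?_⟩
  · intro k b hb
    simp [hb]
  · intro v hv
    rw [hw] at hv
    obtain ⟨j, rfl⟩ := hv
    rintro ⟨m, hm⟩
    -- find free n ≥ m with (unpair (cnt n)).1 = j
    let n := Nat.nth (fun n => h n = none) (Nat.pair j m)
    have h1 : h n = none := Nat.nth_mem_of_infinite hinf _
    have h2 : cnt n = Nat.pair j m := Nat.count_nth_of_infinite hinf _
    have h3 : m ≤ n := by
      have h4 : Nat.pair j m ≤ n := by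
        rw [← h2]
        exact Nat.count_le _
      exact (Nat.right_le_pair j m).trans h4
    have h5 := hm n h3
    simp only [h1, h2, Nat.unpair_pair] at h5
    cases hh : w j n <;> simp [hh] at h5

theorem exists_points (g : Om → Cantor) : ∃ x : Om → Pt,
    (∀ α i k b, HH g α i k = some b → x α i k = b) ∧
    ∀ α β, β < α → ∀ i, ¬ E0 (x α i) (x β i) := by
  classical
  have hex : ∀ α : Om, ∀ y : Iio α → Pt, ∃ z : Pt, (∀ i k b, HH g α i k = some b → z i k = b) ∧
      ∀ β : Iio α, ∀ i, ¬ E0 (z i) (y β i) := by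
    intro α y
    have := fun i => ext_avoid (HH g α i) ((HH_main g α).1 i) (range fun β => y β i)
      (countable_range _)
    choose z hz1 hz2 using this
    exact ⟨z, hz1, fun β i => hz2 i _ ⟨β, rfl⟩⟩
  choose F hF1 hF2 using hex
  let x : Om → Pt := WellFounded.fix (wellFounded_lt : WellFounded ((· < ·) : Om → Om → Prop))
    (fun δ ih => F δ fun β => ih β.1 β.2)
  have hx : ∀ α, x α = F α fun β => x β.1 := fun α => WellFounded.fix_eq _ _ _
  refine ⟨x, ?_, ?_⟩
  · intro α i k b hb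
    rw [hx]
    exact hF1 _ _ i k b hb
  · intro α β hβ i
    rw [hx]
    exact hF2 α _ ⟨β, hβ⟩ i

/-- the set generated by the points of sort `i` -/
def XX (x : Om → Pt) (i : Bool) : Set Cantor := {z | ∃ α, E0 z (x α i)}

theorem inj_of {x : Om → Pt} (hx : ∀ α β, β < α → ∀ i, ¬ E0 (x α i) (x β i)) {α β : Om} {i : Bool}
    (h : E0 (x α i) (x β i)) : α = β := by
  rcases lt_trichotomy α β with h' | h' | h'
  · exact absurd h.symm (hx β α h' i)
  · exact h'
  · exact absurd h (hx α β h' i)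

theorem mk_XX_le (x : Om → Pt) (i : Bool) : #(XX x i) ≤ ℵ₁ := by
  have h : XX x i ⊆ range fun p : Om × List Bool => (fun k => p.2.getD k (x p.1 i k) : Cantor) := by
    rintro z ⟨α, m, hm⟩
    refine ⟨(α, initSeg z m), ?_⟩
    funext k
    by_cases hk : k < m
    · simp [initSeg, hk]
    · simp [initSeg, hk, hm k (not_lt.1 hk)]
  have h3 : (ℵ₀ : Cardinal.{0}) ≤ ℵ₁ := Cardinal.aleph0_lt_aleph_one.le
  calc #(XX x i) ≤ #(range fun p : Om × List Bool => (fun k => p.2.getD k (x p.1 i k) : Cantor)) :=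
        Cardinal.mk_le_mk_of_subset h
    _ ≤ #(Om × List Bool) := Cardinal.mk_range_le
    _ = ℵ₁ * #(List Bool) := by rw [Cardinal.mk_prod, Cardinal.lift_id, Cardinal.lift_id, mk_Om]
    _ ≤ ℵ₁ * ℵ₁ := mul_le_mul' le_rfl (Cardinal.mk_le_aleph0.trans h3)
    _ = ℵ₁ := Cardinal.mul_eq_self h3

theorem kdense_XX {x : Om → Pt} (hx : ∀ α β, β < α → ∀ i, ¬ E0 (x α i) (x β i)) (i : Bool) :
    KDense ℵ₁ (XX x i) := by
  intro U hU hne
  obtain ⟨r, hr⟩ := hne
  refine le_antisymm ((Cardinal.mk_le_mk_of_subset inter_subset_left).trans (mk_XX_le x i)) ?_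
  obtain ⟨K, hK⟩ := mem_nhds_prefix (hU.mem_nhds hr)
  have key : ∀ α : Om, (fun k => if k < K then r k else x α i k) ∈ XX x i ∩ U := by
    intro α
    refine ⟨⟨α, K, fun k hk => by simp [not_lt.2 hk]⟩, hK _ fun k hk => by simp [hk]⟩
  rw [← mk_Om]
  refine Cardinal.mk_le_of_injective (f := fun α => (⟨_, key α⟩ : (XX x i ∩ U : Set Cantor))) ?_
  intro α β hαβ
  have h1 := congrArg Subtype.val hαβ
  refine inj_of hx (i := i) ⟨K, fun k hk => ?_⟩
  have h2 := congrFun h1 k
  simpa [not_lt.2 hk] using h2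

theorem mk_XX {x : Om → Pt} (hx : ∀ α β, β < α → ∀ i, ¬ E0 (x α i) (x β i)) (i : Bool) :
    #(XX x i) = ℵ₁ := by
  have := kdense_XX hx i univ isOpen_univ ⟨fun _ => false, trivial⟩
  rwa [inter_univ] at this

end Pool.Agent.LibAvoid
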